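import Pool.Agent.V1187.DeltaWheel

/-!
# A quantum graph with a delta condition whose hot-spot set is infinite and not the whole graph

The graph is the equilateral wheel with four spokes, with a positive strength at the hub. Its second
eigenvalue is `π ^ 2 / 4`, with multiplicity two; every point of the rim is a hot spot, the hub is not.
-/

set_option autoImplicit false

namespace Pool.Agent.Results.MP_1debac_an.DeltaHotSpots

open Pool.Agent.V1187.QG

/-- There are a compact connected metric graph and strengths of delta conditions at its vertices, not
all zero, such that the set of all points at which some second eigenfunction attains its global maximum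
or its global minimum is infinite and is not the whole graph. -/
theorem result : ∃ (G : MetricGraph) (α : Fin G.nV → ℝ), G.Connected ∧ α ≠ 0 ∧
    (G.HotSpots α).Infinite ∧ G.HotSpots α ≠ Set.univ := by
  refine ⟨wheel, hubStrength aStr, wheel_connected, ?_, wheel_hot_infinite delta_second, ?_⟩
  · intro h
    have h1 : hubStrength aStr (4 : Fin 5) = 0 := congrFun h (4 : Fin 5)
    exact aStr_pos.ne' h1
  · intro h
    apply wheel_hub_not_hot aStr_pos.le delta_second
    have h2 : wv 4 ∈ (Set.univ : Set wheel.Point) := Set.mem_univ _
    rw [← h] at h2
    exact h2

end Pool.Agent.Results.MP_1debac_an.DeltaHotSpots
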